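import Pool.Agent.N566.VV.Defs2
import Pool.Agent.H309R4.Jones.FigAll
import Pool.Agent.H345J.Tasks
import Pool.Agent.H550R3.Jones.Ptr
import Pool.Agent.H559R3.J.Cross
import Pool.Agent.H973R3.J.TaskSchur

/-!
# Project VV: the operator of the tangle of a tree is an intertwiner (helper547)
-/

set_option autoImplicit false
set_option linter.all false

namespace Pool.Agent.N547.VV

open Matrix Finset
open scoped Kronecker
open Pool.Agent.H550R3.Jones
open Pool.Agent.H309R4.Jones (isInt_mul isInt_one isInt_on12 isInt_on23 E_assoc F_assoc wt_assoc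
  isInt_inv_gen)
open Pool.Agent.N566.VV (Tr tangle rot cup belt vertex treeM)

section gen

variable {ι κ : Type} [Fintype ι] [DecidableEq ι] [Fintype κ] [DecidableEq κ]

theorem mulE (v : ℂ) (M : WM ι) (N : WM κ) (A : Matrix (ι × κ) (ι × κ) ℂ) (p q : ι × κ) :
    (A * (tens v M N).E) p q =
      (∑ r, A p (r, q.2) * M.E r q.1) * v ^ N.wt q.2 + ∑ r, A p (q.1, r) * N.E r q.2 := by
  simp only [Matrix.mul_apply, Fintype.sum_prod_type, tens, WM.K, Matrix.add_apply,
    Matrix.kroneckerMap_apply, Matrix.diagonal_apply, Matrix.one_apply, one_mul, mul_add,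
    sum_add_distrib]
  congr 1
  · rw [sum_mul]
    refine sum_congr rfl fun l _ => ?_
    rw [sum_eq_single q.2]
    · simp; ring
    · intro b _ hb; simp [hb]
    · simp
  · rw [sum_comm]
    refine sum_congr rfl fun y _ => ?_
    rw [sum_eq_single q.1]
    · simp
    · intro b _ hb; simp [hb]
    · simp

theorem Emul (v : ℂ) (M : WM ι) (N : WM κ) (A : Matrix (ι × κ) (ι × κ) ℂ) (p q : ι × κ) :
    ((tens v M N).E * A) p q =
      (∑ r, M.E p.1 r * A (r, p.2) q) * v ^ N.wt p.2 + ∑ r, N.E p.2 r * A (p.1, r) q := by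
  simp only [Matrix.mul_apply, Fintype.sum_prod_type, tens, WM.K, Matrix.add_apply,
    Matrix.kroneckerMap_apply, Matrix.diagonal_apply, Matrix.one_apply, one_mul, add_mul,
    sum_add_distrib]
  congr 1
  · rw [sum_mul]
    refine sum_congr rfl fun l _ => ?_
    rw [sum_eq_single p.2]
    · simp; ring
    · intro b _ hb; simp [Ne.symm hb]
    · simp
  · rw [sum_comm]
    refine sum_congr rfl fun y _ => ?_
    rw [sum_eq_single p.1]
    · simp
    · intro b _ hb; simp [Ne.symm hb]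
    · simp

theorem mulF (v : ℂ) (M : WM ι) (N : WM κ) (A : Matrix (ι × κ) (ι × κ) ℂ) (p q : ι × κ) :
    (A * (tens v M N).F) p q =
      (∑ r, A p (r, q.2) * M.F r q.1) + v ^ (-M.wt q.1) * ∑ r, A p (q.1, r) * N.F r q.2 := by
  simp only [Matrix.mul_apply, Fintype.sum_prod_type, tens, WM.K, Matrix.add_apply,
    Matrix.kroneckerMap_apply, Matrix.diagonal_apply, Matrix.one_apply, mul_add,
    sum_add_distrib]
  congr 1
  · refine sum_congr rfl fun l _ => ?_
    rw [sum_eq_single q.2]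
    · simp
    · intro b _ hb; simp [hb]
    · simp
  · rw [sum_comm, mul_sum]
    refine sum_congr rfl fun y _ => ?_
    rw [sum_eq_single q.1]
    · simp; ring
    · intro b _ hb; simp [hb]
    · simp

theorem Fmul (v : ℂ) (M : WM ι) (N : WM κ) (A : Matrix (ι × κ) (ι × κ) ℂ) (p q : ι × κ) :
    ((tens v M N).F * A) p q =
      (∑ r, M.F p.1 r * A (r, p.2) q) + v ^ (-M.wt p.1) * ∑ r, N.F p.2 r * A (p.1, r) q := by
  simp only [Matrix.mul_apply, Fintype.sum_prod_type, tens, WM.K, Matrix.add_apply,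
    Matrix.kroneckerMap_apply, Matrix.diagonal_apply, Matrix.one_apply, add_mul,
    sum_add_distrib]
  congr 1
  · refine sum_congr rfl fun l _ => ?_
    rw [sum_eq_single p.2]
    · simp
    · intro b _ hb; simp [Ne.symm hb]
    · simp
  · rw [sum_comm, mul_sum]
    refine sum_congr rfl fun y _ => ?_
    rw [sum_eq_single p.1]
    · simp; ring
    · intro b _ hb; simp [Ne.symm hb]
    · simp

theorem isInt_smul {M : WM ι} {A : Matrix ι ι ℂ} (hA : IsInt M M A) (c : ℂ) :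
    IsInt M M (c • A) where
  e := by rw [Matrix.smul_mul, hA.e, Matrix.mul_smul]
  f := by rw [Matrix.smul_mul, hA.f, Matrix.mul_smul]
  k := by
    intro i j h
    rw [Matrix.smul_apply, smul_eq_mul] at h
    exact hA.k i j (right_ne_zero_of_mul h)

theorem isInt_pow {M : WM ι} {A : Matrix ι ι ℂ} (hA : IsInt M M A) (n : ℕ) :
    IsInt M M (A ^ n) := by
  induction n with
  | zero => rw [pow_zero]; exact isInt_one M
  | succ n ih => rw [pow_succ]; exact isInt_mul ih hA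

end gen

/-! ### crossings -/

theorem crossP_int {u : ℂ} (hu : Gen u) (N : ℕ) :
    IsInt (W (u ^ 2) N) (W (u ^ 2) N) (crossP N (u ^ 2)) := by
  have hv : u ^ 2 ≠ 0 := pow_ne_zero 2 hu.1
  have hV := (Pool.Agent.H345J.taskMod (u ^ 2) hv).1 N
  have hP := Pool.Agent.H345J.taskInt u hu _ _ (irr (u ^ 2) N) (irr (u ^ 2) N) hV hV
  rw [(Pool.Agent.H559R3.J.taskCross u hu N).1]
  exact isInt_smul hP _

theorem crossN_int {u : ℂ} (hu : Gen u) (N : ℕ) :
    IsInt (W (u ^ 2) N) (W (u ^ 2) N) (crossN N (u ^ 2)) := by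
  have hv : u ^ 2 ≠ 0 := pow_ne_zero 2 hu.1
  have hV := (Pool.Agent.H345J.taskMod (u ^ 2) hv).1 N
  have hP := Pool.Agent.H345J.taskInt u hu _ _ (irr (u ^ 2) N) (irr (u ^ 2) N) hV hV
  obtain ⟨hi1, hi2⟩ := Pool.Agent.H345J.taskInv u hu _ _ (irr (u ^ 2) N) (irr (u ^ 2) N) hV hV
  rw [(Pool.Agent.H559R3.J.taskCross u hu N).2]
  exact isInt_smul (isInt_inv_gen hu hP hi1 hi2) _

/-! ### the crossing circle -/

theorem belt_int {u : ℂ} (hu : Gen u) (N : ℕ) :
    IsInt (W (u ^ 2) N) (W (u ^ 2) N) (belt N (u ^ 2)) := by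
  have hv : u ^ 2 ≠ 0 := pow_ne_zero 2 hu.1
  have hV := (Pool.Agent.H345J.taskMod (u ^ 2) hv).1 N
  have hVV := (Pool.Agent.H345J.taskMod (u ^ 2) hv).2 _ _ _ _ hV hV
  have hP := crossP_int hu N
  have h12 := isInt_on12 (u ^ 2) hv (irr (u ^ 2) N) hP
  have h23 := isInt_on23 (u ^ 2) (irr (u ^ 2) N) hP
  have hA := isInt_mul h23 (isInt_mul h12 (isInt_mul h12 h23))
  set V := irr (u ^ 2) N with hVdef
  set A := on23 (crossP N (u ^ 2)) * (on12 (crossP N (u ^ 2)) *
    (on12 (crossP N (u ^ 2)) * on23 (crossP N (u ^ 2)))) with hAdef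
  have hA' : IsInt (tens (u ^ 2) (tens (u ^ 2) V V) V) (tens (u ^ 2) (tens (u ^ 2) V V) V)
      (A.submatrix (Equiv.prodAssoc (Fin N) (Fin N) (Fin N))
        (Equiv.prodAssoc (Fin N) (Fin N) (Fin N))) := by
    have hE : (tens (u ^ 2) (tens (u ^ 2) V V) V).E =
        (tens (u ^ 2) V (tens (u ^ 2) V V)).E.submatrix
          (Equiv.prodAssoc (Fin N) (Fin N) (Fin N)) (Equiv.prodAssoc (Fin N) (Fin N) (Fin N)) := by
      rw [E_assoc _ hv, Matrix.submatrix_submatrix]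
      simp
    have hF : (tens (u ^ 2) (tens (u ^ 2) V V) V).F =
        (tens (u ^ 2) V (tens (u ^ 2) V V)).F.submatrix
          (Equiv.prodAssoc (Fin N) (Fin N) (Fin N)) (Equiv.prodAssoc (Fin N) (Fin N) (Fin N)) := by
      rw [F_assoc _ hv, Matrix.submatrix_submatrix]
      simp
    constructor
    · rw [hE, Matrix.submatrix_mul_equiv, Matrix.submatrix_mul_equiv, hA.e]
    · rw [hF, Matrix.submatrix_mul_equiv, Matrix.submatrix_mul_equiv, hA.f]
    · intro i j hij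
      have := hA.k _ _ hij
      rw [wt_assoc, wt_assoc] at this
      simpa using this
  have hT := taskPtr550 (u ^ 2) hv _ _ (tens (u ^ 2) V V) V hVV hV _ hA'
  exact hT

/-! ### rotation -/

theorem cup_rec {u : ℂ} (hu : Gen u) (N s : ℕ) (hs : s + 1 < N) :
    br (u ^ 2) ((N : ℤ) - (s + 1)) * cup N (u ^ 2) (s + 1) =
      -(br (u ^ 2) ((s : ℤ) + 1) * (u ^ 2) ^ ((N : ℤ) - 1 - 2 * (s + 1)) * cup N (u ^ 2) s) := by
  have hv : u ^ 2 ≠ 0 := pow_ne_zero 2 hu.1
  obtain ⟨m, hm⟩ : ∃ m, N = s + 2 + m := ⟨N - (s + 2), by omega⟩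
  have e1 : N - 1 - (s + 1) = m := by omega
  have e2 : N - 1 - s = m + 1 := by omega
  rw [cup, cup, e1, e2, Pool.Agent.H559R3.J.brf_succ, Pool.Agent.H559R3.J.brf_succ]
  have e3 : (N : ℤ) - (s + 1) = (m : ℤ) + 1 := by rw [hm]; push_cast; ring
  rw [e3]
  have e4 : (u ^ 2) ^ (((s + 1 : ℕ) : ℤ) * ((N : ℤ) - 2 - ((s + 1 : ℕ) : ℤ))) =
      (u ^ 2) ^ ((N : ℤ) - 1 - 2 * (s + 1)) * (u ^ 2) ^ ((s : ℤ) * ((N : ℤ) - 2 - s)) := by
    rw [← zpow_add₀ hv]
    congr 1
    push_cast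
    ring
  rw [e4, pow_succ]
  ring

theorem cup_ne {u : ℂ} (hu : Gen u) (N j : ℕ) : cup N (u ^ 2) j ≠ 0 := by
  have hv : u ^ 2 ≠ 0 := pow_ne_zero 2 hu.1
  rw [cup]
  exact mul_ne_zero (mul_ne_zero (pow_ne_zero _ (by norm_num))
    (mul_ne_zero (Pool.Agent.H559R3.J.brf_ne hu _) (Pool.Agent.H559R3.J.brf_ne hu _)))
    (zpow_ne_zero _ hv)

theorem wt_rev (v : ℂ) (N : ℕ) (a : Fin N) : (irr v N).wt (Fin.rev a) = -(irr v N).wt a := by
  simp only [irr, Fin.val_rev]
  have := a.2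
  omega

theorem S1 {u : ℂ} (hu : Gen u) (N : ℕ) (a s : Fin N) :
    (irr (u ^ 2) N).E a s * cup N (u ^ 2) s =
      -((u ^ 2) ^ (irr (u ^ 2) N).wt s * cup N (u ^ 2) a *
        (irr (u ^ 2) N).E (Fin.rev s) (Fin.rev a)) := by
  have ha := a.2
  have hs := s.2
  by_cases h : (s : ℕ) = a + 1
  · have h1 : ((Fin.rev a : Fin N) : ℕ) = (Fin.rev s : Fin N) + 1 := by
      rw [Fin.val_rev, Fin.val_rev]; omega
    have h2 := cup_rec hu N a (by omega)
    simp only [irr]
    rw [if_pos h, if_pos h1]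
    have h3 : (N : ℤ) - ((Fin.rev a : Fin N) : ℕ) = (a : ℤ) + 1 := by
      rw [Fin.val_rev]; omega
    rw [h3, h]
    push_cast at h2 ⊢
    rw [h2]
    ring
  · have h1 : ¬ ((Fin.rev a : Fin N) : ℕ) = (Fin.rev s : Fin N) + 1 := by
      rw [Fin.val_rev, Fin.val_rev]; omega
    simp only [irr]
    rw [if_neg h, if_neg h1]
    simp

theorem S2 {u : ℂ} (hu : Gen u) (N : ℕ) (a s : Fin N) :
    (irr (u ^ 2) N).F a s * cup N (u ^ 2) s =
      -((u ^ 2) ^ (-(irr (u ^ 2) N).wt a) * cup N (u ^ 2) a *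
        (irr (u ^ 2) N).F (Fin.rev s) (Fin.rev a)) := by
  have hv : u ^ 2 ≠ 0 := pow_ne_zero 2 hu.1
  have ha := a.2
  have hs := s.2
  by_cases h : (a : ℕ) = s + 1
  · have h1 : ((Fin.rev s : Fin N) : ℕ) = (Fin.rev a : Fin N) + 1 := by
      rw [Fin.val_rev, Fin.val_rev]; omega
    have h2 := cup_rec hu N s (by omega)
    simp only [irr]
    rw [if_pos h, if_pos h1]
    have h3 : (((Fin.rev s : Fin N) : ℕ) : ℤ) = (N : ℤ) - (s + 1) := by
      rw [Fin.val_rev]; omega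
    rw [h3, h]
    push_cast at h2 ⊢
    have h4 : (u ^ 2) ^ (-((N : ℤ) - 1 - 2 * ((s : ℤ) + 1))) *
        (u ^ 2) ^ ((N : ℤ) - 1 - 2 * ((s : ℤ) + 1)) = 1 := by
      rw [← zpow_add₀ hv, neg_add_cancel, zpow_zero]
    linear_combination ((u ^ 2) ^ (-((N : ℤ) - 1 - 2 * ((s : ℤ) + 1)))) * h2 -
      br (u ^ 2) ((s : ℤ) + 1) * cup N (u ^ 2) s * h4
  · have h1 : ¬ ((Fin.rev s : Fin N) : ℕ) = (Fin.rev a : Fin N) + 1 := by
      rw [Fin.val_rev, Fin.val_rev]; omega
    simp only [irr]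
    rw [if_neg h, if_neg h1]
    simp

theorem rot_int {u : ℂ} (hu : Gen u) (N : ℕ) (A : Matrix (Fin N × Fin N) (Fin N × Fin N) ℂ)
    (hA : IsInt (W (u ^ 2) N) (W (u ^ 2) N) A) :
    IsInt (W (u ^ 2) N) (W (u ^ 2) N) (rot N (u ^ 2) A) := by
  have hv : u ^ 2 ≠ 0 := pow_ne_zero 2 hu.1
  have hwr : ∀ a : Fin N, (irr (u ^ 2) N).wt (Fin.rev a) = -(irr (u ^ 2) N).wt a :=
    wt_rev _ _
  have hwt : ∀ p q : Fin N × Fin N, A p q ≠ 0 → (irr (u ^ 2) N).wt p.1 + (irr (u ^ 2) N).wt p.2 =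
      (irr (u ^ 2) N).wt q.1 + (irr (u ^ 2) N).wt q.2 := fun p q h => hA.k p q h
  constructor
  · ext ⟨a, b⟩ ⟨c, d⟩
    have h := congrFun (congrFun hA.e (b, Fin.rev d)) (Fin.rev a, c)
    rw [W, mulE, Emul] at h
    rw [W, mulE, Emul]
    simp only at h ⊢
    rw [wt_rev] at h
    set E := (irr (u ^ 2) N).E with hE
    set w := (irr (u ^ 2) N).wt with hw
    have hd := cup_ne hu N d
    set X1 := ∑ r, A (b, Fin.rev d) (r, c) * E r (Fin.rev a) with hX1
    set X2 := ∑ r, A (b, Fin.rev d) (Fin.rev a, r) * E r c with hX2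
    set X3 := ∑ r, E b r * A (r, Fin.rev d) (Fin.rev a, c) with hX3
    set X4 := ∑ r, E (Fin.rev d) r * A (b, r) (Fin.rev a, c) with hX4
    have hX4' : X4 = ∑ r, E (Fin.rev d) (Fin.rev r) * A (b, Fin.rev r) (Fin.rev a, c) :=
      (Equiv.sum_comp Fin.revPerm (fun r => E (Fin.rev d) r * A (b, r) (Fin.rev a, c))).symm
    have hX1' : X1 = ∑ r, A (b, Fin.rev d) (Fin.rev r, c) * E (Fin.rev r) (Fin.rev a) :=
      (Equiv.sum_comp Fin.revPerm (fun r => A (b, Fin.rev d) (r, c) * E r (Fin.rev a))).symm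
    have t1 : ∑ r, rot N (u ^ 2) A (a, b) (r, d) * E r c =
        cup N (u ^ 2) a / cup N (u ^ 2) d * X2 := by
      rw [hX2, mul_sum]
      refine sum_congr rfl fun r _ => ?_
      rw [rot]; ring
    have t2 : ∑ r, rot N (u ^ 2) A (a, b) (c, r) * E r d =
        -(cup N (u ^ 2) a / cup N (u ^ 2) d * (u ^ 2) ^ w d * X4) := by
      rw [hX4', mul_sum, ← sum_neg_distrib]
      refine sum_congr rfl fun r _ => ?_
      have hr := cup_ne hu N r
      have h1 := S1 hu N r d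
      rw [← hE, ← hw] at h1
      simp only [rot]
      field_simp
      linear_combination cup N (u ^ 2) a * A (b, Fin.rev r) (Fin.rev a, c) * h1
    have t3 : (∑ r, E a r * rot N (u ^ 2) A (r, b) (c, d)) * (u ^ 2) ^ w b =
        -(cup N (u ^ 2) a / cup N (u ^ 2) d * (u ^ 2) ^ w d * (u ^ 2) ^ w c * X1) := by
      rw [hX1', mul_sum, sum_mul, ← sum_neg_distrib]
      refine sum_congr rfl fun r _ => ?_
      have h1 := S1 hu N a r
      rw [← hE, ← hw] at h1
      simp only [rot]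
      by_cases h0 : A (b, Fin.rev d) (Fin.rev r, c) = 0
      · rw [h0]; ring
      · have h2 := hwt _ _ h0
        simp only [hwr] at h2
        have h3 : (u ^ 2) ^ w b * (u ^ 2) ^ w r = (u ^ 2) ^ w d * (u ^ 2) ^ w c := by
          rw [← zpow_add₀ hv, ← zpow_add₀ hv]
          congr 1
          omega
        field_simp
        linear_combination (u ^ 2) ^ w b * h1 -
          cup N (u ^ 2) a * E (Fin.rev r) (Fin.rev a) * h3
    have t4 : ∑ r, E b r * rot N (u ^ 2) A (a, r) (c, d) =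
        cup N (u ^ 2) a / cup N (u ^ 2) d * X3 := by
      rw [hX3, mul_sum]
      refine sum_congr rfl fun r _ => ?_
      rw [rot]; ring
    rw [t1, t2, t3, t4]
    have h5 : (u ^ 2) ^ w d * (u ^ 2) ^ (-w d) = 1 := by
      rw [← zpow_add₀ hv, add_neg_cancel, zpow_zero]
    linear_combination (cup N (u ^ 2) a / cup N (u ^ 2) d * (u ^ 2) ^ w d) * h +
      cup N (u ^ 2) a / cup N (u ^ 2) d * X3 * h5
  · ext ⟨a, b⟩ ⟨c, d⟩
    have h := congrFun (congrFun hA.f (b, Fin.rev d)) (Fin.rev a, c)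
    rw [W, mulF, Fmul] at h
    rw [W, mulF, Fmul]
    simp only at h ⊢
    rw [wt_rev, neg_neg] at h
    set F := (irr (u ^ 2) N).F with hF
    set w := (irr (u ^ 2) N).wt with hw
    have hd := cup_ne hu N d
    set X1 := ∑ r, A (b, Fin.rev d) (r, c) * F r (Fin.rev a) with hX1
    set X2 := ∑ r, A (b, Fin.rev d) (Fin.rev a, r) * F r c with hX2
    set X3 := ∑ r, F b r * A (r, Fin.rev d) (Fin.rev a, c) with hX3
    set X4 := ∑ r, F (Fin.rev d) r * A (b, r) (Fin.rev a, c) with hX4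
    have hX4' : X4 = ∑ r, F (Fin.rev d) (Fin.rev r) * A (b, Fin.rev r) (Fin.rev a, c) :=
      (Equiv.sum_comp Fin.revPerm (fun r => F (Fin.rev d) r * A (b, r) (Fin.rev a, c))).symm
    have hX1' : X1 = ∑ r, A (b, Fin.rev d) (Fin.rev r, c) * F (Fin.rev r) (Fin.rev a) :=
      (Equiv.sum_comp Fin.revPerm (fun r => A (b, Fin.rev d) (r, c) * F r (Fin.rev a))).symm
    have t1 : ∑ r, rot N (u ^ 2) A (a, b) (r, d) * F r c =
        cup N (u ^ 2) a / cup N (u ^ 2) d * X2 := by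
      rw [hX2, mul_sum]
      refine sum_congr rfl fun r _ => ?_
      rw [rot]; ring
    have t2 : (u ^ 2) ^ (-w c) * ∑ r, rot N (u ^ 2) A (a, b) (c, r) * F r d =
        -(cup N (u ^ 2) a / cup N (u ^ 2) d * (u ^ 2) ^ (-w a) * (u ^ 2) ^ (-w b) * X4) := by
      rw [hX4', mul_sum, mul_sum, ← sum_neg_distrib]
      refine sum_congr rfl fun r _ => ?_
      have hr := cup_ne hu N r
      have h1 := S2 hu N r d
      rw [← hF, ← hw] at h1
      simp only [rot]
      by_cases h0 : A (b, Fin.rev r) (Fin.rev a, c) = 0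
      · rw [h0]; ring
      · have h2 := hwt _ _ h0
        simp only [hwr] at h2
        have h3 : (u ^ 2) ^ (-w c) * (u ^ 2) ^ (-w r) = (u ^ 2) ^ (-w a) * (u ^ 2) ^ (-w b) := by
          rw [← zpow_add₀ hv, ← zpow_add₀ hv]
          congr 1
          omega
        field_simp
        linear_combination cup N (u ^ 2) a * (u ^ 2) ^ (-w c) * h1 -
          cup N (u ^ 2) a * cup N (u ^ 2) r * F (Fin.rev d) (Fin.rev r) * h3
    have t3 : (∑ r, F a r * rot N (u ^ 2) A (r, b) (c, d)) =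
        -(cup N (u ^ 2) a / cup N (u ^ 2) d * (u ^ 2) ^ (-w a) * X1) := by
      rw [hX1', mul_sum, ← sum_neg_distrib]
      refine sum_congr rfl fun r _ => ?_
      have h1 := S2 hu N a r
      rw [← hF, ← hw] at h1
      simp only [rot]
      field_simp
      linear_combination A (b, Fin.rev d) (Fin.rev r, c) * h1
    have t4 : ∑ r, F b r * rot N (u ^ 2) A (a, r) (c, d) =
        cup N (u ^ 2) a / cup N (u ^ 2) d * X3 := by
      rw [hX3, mul_sum]
      refine sum_congr rfl fun r _ => ?_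
      rw [rot]; ring
    rw [t1, t2, t3, t4]
    have h5 : (u ^ 2) ^ (-w a) * (u ^ 2) ^ w a = 1 := by
      rw [← zpow_add₀ hv, neg_add_cancel, zpow_zero]
    linear_combination (cup N (u ^ 2) a / cup N (u ^ 2) d * (u ^ 2) ^ (-w a)) * h -
      cup N (u ^ 2) a / cup N (u ^ 2) d * X2 * h5
  · rintro ⟨a, b⟩ ⟨c, d⟩ h
    rw [rot] at h
    have h2 := hwt _ _ (right_ne_zero_of_mul h)
    simp only [wt_rev] at h2
    show (irr (u ^ 2) N).wt a + (irr (u ^ 2) N).wt b = (irr (u ^ 2) N).wt c + (irr (u ^ 2) N).wt d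
    omega

/-! ### tangles -/

theorem vertex_int {u : ℂ} (hu : Gen u) (N : ℕ) (b : Bool) (a : ℤ) :
    IsInt (W (u ^ 2) N) (W (u ^ 2) N) (vertex N (u ^ 2) b a) := by
  rw [vertex]
  apply isInt_mul
  · split_ifs
    · exact belt_int hu N
    · exact isInt_one _
  · split_ifs
    · exact isInt_pow (crossP_int hu N) _
    · exact isInt_pow (crossN_int hu N) _

theorem tangle_int {u : ℂ} (hu : Gen u) (N : ℕ) (t : Tr) :
    IsInt (W (u ^ 2) N) (W (u ^ 2) N) (tangle N (u ^ 2) t) := by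
  induction t with
  | single b a => exact vertex_int hu N b a
  | join t c iht ihc => exact isInt_mul iht (rot_int hu N _ ihc)

theorem s_sch2 : Pool.Agent.N566.VV.S_SCH2 := by
  intro N u hu t
  have hv : u ^ 2 ≠ 0 := pow_ne_zero 2 hu.1
  have hV := (Pool.Agent.H345J.taskMod (u ^ 2) hv).1 N
  have hT := taskPtr550 (u ^ 2) hv _ _ (irr (u ^ 2) N) (irr (u ^ 2) N) hV hV _ (tangle_int hu N t)
  exact Pool.Agent.H973J.taskSchur u hu N _ hT

end Pool.Agent.N547.VV
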